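import Mathlib
import Pool.Agent.W71.Normal

set_option autoImplicit false

namespace Pool.Agent.Results.MP_f09850_nt.NormalAndNowhereNormal

open Polynomial Filter Topology

/-- The naive height of an integer polynomial: the maximum absolute value of its coefficients. -/
def height (P : ℤ[X]) : ℕ := P.support.sup (fun i => (P.coeff i).natAbs)

/-- Mahler's exponent `w_n(ξ)`, in the extended reals. -/
noncomputable def wMahler (n : ℕ) (ξ : ℝ) : EReal :=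
  sSup {W : EReal | ∃ w : ℝ, W = (w : EReal) ∧
    {P : ℤ[X] | P.natDegree ≤ n ∧ 0 < |aeval ξ P| ∧
      |aeval ξ P| ≤ (height P : ℝ) ^ (-w)}.Infinite}

/-- `P` is the minimal polynomial over the integers of the real number `α`: the primitive integer
polynomial of least positive degree with positive leading coefficient that vanishes at `α`. -/
def IsMinimalPolynomial (P : ℤ[X]) (α : ℝ) : Prop :=
  P.IsPrimitive ∧ 0 < P.leadingCoeff ∧ 0 < P.natDegree ∧ aeval α P = 0 ∧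
    ∀ Q : ℤ[X], Q ≠ 0 → aeval α Q = 0 → P.natDegree ≤ Q.natDegree

/-- Koksma's exponent `w_n^*(ξ)`, in the extended reals. The set is the set of real algebraic
numbers `α` of degree at most `n` with `0 < |ξ - α| ≤ H(α) ^ (-w - 1)`. -/
noncomputable def wKoksma (n : ℕ) (ξ : ℝ) : EReal :=
  sSup {W : EReal | ∃ w : ℝ, W = (w : EReal) ∧
    {α : ℝ | ∃ P : ℤ[X], IsMinimalPolynomial P α ∧ P.natDegree ≤ n ∧ 0 < |ξ - α| ∧
      |ξ - α| ≤ (height P : ℝ) ^ (-w - 1)}.Infinite}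

/-- `𝒲_n(τ)`: the real numbers with `w_n(ξ) = τ (n + 1) - 1`. -/
def MahlerLevel (n : ℕ) (τ : ℝ) : Set ℝ := {ξ | wMahler n ξ = ((τ * (n + 1) - 1 : ℝ) : EReal)}

/-- `𝒲_n^*(τ)`: the real numbers with `w_n^*(ξ) = τ (n + 1) - 1`. -/
def KoksmaLevel (n : ℕ) (τ : ℝ) : Set ℝ := {ξ | wKoksma n ξ = ((τ * (n + 1) - 1 : ℝ) : EReal)}

/-- `ξ` is simply normal in base `b`: each digit `d < b` has asymptotic frequency `1 / b` in the
base-`b` expansion of `ξ`; the digit in position `j + 1` after the point is `⌊ξ b ^ (j + 1)⌋ mod b`. -/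
def SimplyNormal (b : ℕ) (ξ : ℝ) : Prop :=
  ∀ d : ℕ, d < b → Tendsto (fun N : ℕ => (((Finset.range N).filter
    (fun j : ℕ => ⌊ξ * (b : ℝ) ^ (j + 1)⌋ % (b : ℤ) = (d : ℤ))).card : ℝ) / (N : ℝ))
    atTop (𝓝 (1 / (b : ℝ)))

/-- For every `n ≥ 1` and every real `τ > 1` there is a number that lies in both `𝒲_n(τ)` and
`𝒲_n^*(τ)` and is normal (simply normal in every base), and there is a number that lies in both
sets and is simply normal in no base. -/
theorem result : ∀ n : ℕ, 1 ≤ n → ∀ τ : ℝ, 1 < τ →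
    (∃ ξ : ℝ, ξ ∈ MahlerLevel n τ ∧ ξ ∈ KoksmaLevel n τ ∧ ∀ b : ℕ, 2 ≤ b → SimplyNormal b ξ) ∧
    (∃ ξ : ℝ, ξ ∈ MahlerLevel n τ ∧ ξ ∈ KoksmaLevel n τ ∧ ∀ b : ℕ, 2 ≤ b → ¬ SimplyNormal b ξ) := by
  intro n hn τ hτ
  have hn0 : (0 : ℝ) ≤ n := Nat.cast_nonneg n
  have hw : (n : ℝ) < τ * (n + 1) - 1 := by nlinarith
  refine ⟨?_, ?_⟩
  · obtain ⟨ξ, h1, h2, h3⟩ := Pool.Agent.W71.normal_number hn (τ * (n + 1) - 1) hw
    exact ⟨ξ, h1, h2, h3⟩
  · obtain ⟨ξ, h1, h2, h3⟩ := Pool.Agent.W71.nowhere_normal hn (τ * (n + 1) - 1) hw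
    exact ⟨ξ, h1, h2, h3⟩

end Pool.Agent.Results.MP_f09850_nt.NormalAndNowhereNormal
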